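import Mathlib
import Pool.Agent.H107.AbcWin

/-!
# Oesterlé's weak abc conjecture in windows of heights

Let `v ≥ 1` be a sequence with exponent of convergence at most `τ` (for `v_n = n ^ a` this is `1 / a`, for `v_n = b ^ n`
it is `0`) and `θ < 1`. For all `α > 0` outside a set of Hausdorff dimension at most `τ / (1 - θ)` there is an exponent
`M` such that, for all but finitely many `n`, ALL abc triples with `|c - α v_n| ≤ v_n ^ θ` satisfy
`c < rad (abc) ^ M`.
-/

set_option autoImplicit false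

namespace Pool.Agent.Results.MP_2ec8a3_nt.HeightWindows

/-- the radical: the product of the distinct primes dividing `m` -/
def rad (m : ℕ) : ℕ := ∏ p ∈ m.primeFactors, p

/-- the exponent of convergence of the sequence `v` is at most `τ` -/
def ExpLe (v : ℕ → ℝ) (τ : ℝ) : Prop := ∀ t : ℝ, τ < t → Summable (fun n : ℕ => (v n) ^ (-t))

/-- **Theorem.** Let `v ≥ 1` be a sequence of exponent of convergence at most `τ ≥ 0` and `θ < 1`. There is a set `E` of
Hausdorff dimension at most `τ / (1 - θ)` such that for each `α > 0` outside `E` there are `M` and `n₀` such that, for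
`n ≥ n₀`, ALL coprime positive integers `a`, `b` whose sum `c` satisfies `|c - α v_n| ≤ v_n ^ θ` have
`c < rad (abc) ^ M`. The sequences `v_n = (n + 1) ^ a` and `v_n = b ^ n` have exponents of convergence at most `1 / a`
and `0`; for `v_n = b ^ n` the set `E` has dimension zero. -/
theorem result :
    (∀ (v : ℕ → ℝ) (τ θ : ℝ), (∀ n, 1 ≤ v n) → 0 ≤ τ → ExpLe v τ → θ < 1 →
      ∃ E : Set ℝ, dimH E ≤ ENNReal.ofReal (τ / (1 - θ)) ∧
        ∀ α : ℝ, 0 < α → α ∉ E → ∃ M : ℝ, 0 < M ∧ ∃ n₀ : ℕ, ∀ n : ℕ, n₀ ≤ n → ∀ a b c : ℕ, 0 < a → 0 < b →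
          Nat.Coprime a b → a + b = c → |(c : ℝ) - α * v n| ≤ (v n) ^ θ →
            (c : ℝ) < (rad (a * b * c) : ℝ) ^ M) ∧
    (∀ a : ℝ, 0 < a → ExpLe (fun n : ℕ => ((n : ℝ) + 1) ^ a) (1 / a)) ∧
    (∀ b : ℝ, 1 < b → ExpLe (fun n : ℕ => b ^ n) 0) := by
  refine ⟨fun v τ θ hv hτ hE hθ1 => ?_, fun κ hκ => Pool.Agent.Y854.GM.expLe_pow κ hκ,
    fun b hb => Pool.Agent.Y854.GM.expLe_geom b hb⟩
  exact Pool.Agent.H107.AbcWin.weak hv hτ hE hθ1

end Pool.Agent.Results.MP_2ec8a3_nt.HeightWindows
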