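import Mathlib
import Pool.Agent.V11001.KM.Abc

/-!
# Oesterlé's weak abc conjecture for the triples near the powers of all real numbers outside a set of dimension zero

Let `ν n` be real numbers with `ν n / log n → ∞`, for example `ν n = n` or `ν n = n !`. There is a set `E` of real numbers
of Hausdorff dimension zero such that for each `x > 1` outside `E` and each `θ < 1` there is an exponent `M` such that
ALL abc triples with `|c - x ^ (ν n)| ≤ x ^ (θ ν n)` for some `n` satisfy `c < rad (abc) ^ M`.
-/

set_option autoImplicit false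

namespace Pool.Agent.Results.MP_2ec8a3_nt.HeightsNearPowers

open Filter

/-- the radical: the product of the distinct primes dividing `m` -/
def rad (m : ℕ) : ℕ := ∏ p ∈ m.primeFactors, p

/-- **Theorem.** Let `ν n / log n → ∞` and let `B` be a countable set of real numbers. There is a set `E` of real
numbers of Hausdorff dimension zero such that for each `x > 1` outside `E`, each `θ < 1` and each positive `β` in `B`
there is an exponent `M` such that ALL coprime positive integers `a`, `b` whose sum `c` satisfies
`|c - β x ^ (ν n)| ≤ x ^ (θ ν n)` for some `n` have `c < rad (abc) ^ M`. -/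
theorem result : ∀ ν : ℕ → ℝ, Tendsto (fun n : ℕ => ν n / Real.log n) atTop atTop → ∀ B : Set ℝ, B.Countable →
    ∃ E : Set ℝ, dimH E = 0 ∧ ∀ x : ℝ, 1 < x → x ∉ E → ∀ θ : ℝ, θ < 1 → ∀ β ∈ B, 0 < β →
      ∃ M : ℝ, 0 < M ∧ ∀ a b c : ℕ, 0 < a → 0 < b → Nat.Coprime a b → a + b = c →
        (∃ n : ℕ, |(c : ℝ) - β * x ^ ν n| ≤ x ^ (θ * ν n)) → (c : ℝ) < (rad (a * b * c) : ℝ) ^ M := by
  intro ν hν B hB
  exact Pool.Agent.V11001.KM.Abc.weak hν B hB

end Pool.Agent.Results.MP_2ec8a3_nt.HeightsNearPowers
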