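import Mathlib
import Pool.Agent.H107.AbcSlope

/-!
# Oesterlé's weak abc conjecture near a point

There is a set `E` of reals of Hausdorff dimension zero such that for each `x` outside `E` and each `σ > 0` there is an
exponent `m` with `c < rad (abc) ^ m` for ALL abc triples with `|a / c - x| ≤ c ^ (-σ)`.
-/

set_option autoImplicit false

namespace Pool.Agent.Results.MP_2ec8a3_nt.RatiosNearPoints

open Pool.Agent.H107.AbcSlope (approx weak)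
open Pool.Agent.H107.AbcWin (Exc F)

/-- the radical: the product of the distinct primes dividing `m` -/
def rad (m : ℕ) : ℕ := ∏ p ∈ m.primeFactors, p

/-- the abc triples: `(a, b, c)` with `a`, `b` coprime positive integers and `a + b = c` -/
def Triple (t : ℕ × ℕ × ℕ) : Prop :=
  0 < t.1 ∧ 0 < t.2.1 ∧ Nat.Coprime t.1 t.2.1 ∧ t.1 + t.2.1 = t.2.2

lemma absolute {M : Type} [MetricSpace M] (φ : ℕ × ℕ × ℕ → M) (σ : ℝ) (hσ : 0 < σ) (m : ℝ) (hm : 3 / 2 ≤ m) :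
    ∃ E : Set M, dimH E ≤ ENNReal.ofReal (4 / (7 * m * σ)) ∧ ∀ x ∉ E,
      {t : ℕ × ℕ × ℕ | Triple t ∧ dist (φ t) x ≤ (t.2.2 : ℝ) ^ (-σ) ∧
        (rad (t.1 * t.2.1 * t.2.2) : ℝ) ^ m ≤ t.2.2}.Finite := by
  have hm0 : 0 < m := by linarith
  obtain ⟨E, h1, h2⟩ := approx (1 / m) (by positivity) φ hσ
  refine ⟨E, h1.trans (ENNReal.ofReal_le_ofReal (le_of_eq ?_)), fun x hx => ?_⟩
  · unfold F
    rw [if_pos]
    · field_simp
    · rw [div_le_div_iff₀ hm0 (by norm_num)]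
      linarith
  · refine (h2 x hx 1).subset ?_
    rintro t ⟨⟨h3, h4, h5, h6⟩, h7, h8⟩
    refine ⟨⟨h3, h4, h5, h6, ?_⟩, h7⟩
    have h9 := Real.rpow_le_rpow (Real.rpow_nonneg (Nat.cast_nonneg _) _) h8 (z := 1 / m) (by positivity)
    rw [← Real.rpow_mul (Nat.cast_nonneg _), mul_one_div_cancel hm0.ne', Real.rpow_one] at h9
    rw [one_mul]
    exact h9

/-- **Theorem.** (1) There is a set `E` of reals of Hausdorff dimension `0` such that for each real `x` outside `E` and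
each `σ > 0` there is an exponent `m` with `c < rad (abc) ^ m` for ALL abc triples with `|a / c - x| ≤ c ^ (-σ)`.
(2) For each `m ≥ 3 / 2` and `σ > 0` there is a set `E` of reals of Hausdorff dimension at most `4 / (7 m σ)` such that
for each `x` outside `E` all but finitely many abc triples with `|a / c - x| ≤ c ^ (-σ)` satisfy `c < rad (abc) ^ m`.
(3) and (4): both hold for every map of the triples to a metric space in place of `a / c`. -/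
theorem result :
    (∃ E : Set ℝ, dimH E = 0 ∧ ∀ x ∉ E, ∀ σ : ℝ, 0 < σ → ∃ m : ℝ, ∀ a b c : ℕ, Triple (a, b, c) →
      |(a : ℝ) / c - x| ≤ (c : ℝ) ^ (-σ) → (c : ℝ) < (rad (a * b * c) : ℝ) ^ m) ∧
    (∀ σ : ℝ, 0 < σ → ∀ m : ℝ, 3 / 2 ≤ m → ∃ E : Set ℝ, dimH E ≤ ENNReal.ofReal (4 / (7 * m * σ)) ∧
      ∀ x ∉ E, {t : ℕ × ℕ × ℕ | Triple t ∧ |(t.1 : ℝ) / t.2.2 - x| ≤ (t.2.2 : ℝ) ^ (-σ) ∧
        (rad (t.1 * t.2.1 * t.2.2) : ℝ) ^ m ≤ t.2.2}.Finite) ∧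
    (∀ (M : Type) [MetricSpace M] (φ : ℕ × ℕ × ℕ → M),
      ∃ E : Set M, dimH E = 0 ∧ ∀ x ∉ E, ∀ σ : ℝ, 0 < σ → ∃ m : ℝ, ∀ a b c : ℕ, Triple (a, b, c) →
        dist (φ (a, b, c)) x ≤ (c : ℝ) ^ (-σ) → (c : ℝ) < (rad (a * b * c) : ℝ) ^ m) ∧
    (∀ (M : Type) [MetricSpace M] (φ : ℕ × ℕ × ℕ → M) (σ : ℝ), 0 < σ → ∀ m : ℝ, 3 / 2 ≤ m →
      ∃ E : Set M, dimH E ≤ ENNReal.ofReal (4 / (7 * m * σ)) ∧ ∀ x ∉ E,
        {t : ℕ × ℕ × ℕ | Triple t ∧ dist (φ t) x ≤ (t.2.2 : ℝ) ^ (-σ) ∧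
          (rad (t.1 * t.2.1 * t.2.2) : ℝ) ^ m ≤ t.2.2}.Finite) := by
  have h3 : ∀ (M : Type) [MetricSpace M] (φ : ℕ × ℕ × ℕ → M),
      ∃ E : Set M, dimH E = 0 ∧ ∀ x ∉ E, ∀ σ : ℝ, 0 < σ → ∃ m : ℝ, ∀ a b c : ℕ, Triple (a, b, c) →
        dist (φ (a, b, c)) x ≤ (c : ℝ) ^ (-σ) → (c : ℝ) < (rad (a * b * c) : ℝ) ^ m := by
    intro M _ φ
    obtain ⟨E, h1, h2⟩ := weak φ
    refine ⟨E, h1, fun x hx σ hσ => ?_⟩
    obtain ⟨m, hm⟩ := h2 x hx σ hσ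
    exact ⟨m, fun a b c ht hd => hm a b c ht.1 ht.2.1 ht.2.2.1 ht.2.2.2 hd⟩
  refine ⟨?_, fun σ hσ m hm => ?_, h3, fun M _ φ σ hσ m hm => absolute φ σ hσ m hm⟩
  · exact h3 ℝ (fun t => (t.1 : ℝ) / t.2.2)
  · exact absolute (fun t => (t.1 : ℝ) / t.2.2) σ hσ m hm

end Pool.Agent.Results.MP_2ec8a3_nt.RatiosNearPoints
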