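import Pool.Agent.H107.AbcRad

/-!
# Oesterlé's inequality for all the abc-triples whose radical lies in short windows

Let `v ≥ 1` be any sequence with exponent of convergence at most `τ` (for `v_k = (k + 1) ^ κ` this is `1 / κ`, for
`v_k = b ^ k` it is `0`) and `θ < 1`.

1. For all `α > 0` outside a set of Hausdorff dimension at most `(4 / 7 + τ) / (1 - θ)`, all `n` and `B` and all but finitely many
`k`, EVERY abc-triple, of whatever height, with at most `n` prime factors and `|rad (abc) - α v_k| ≤ v_k ^ θ` has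
`rad (abc) > B c`. The same holds for the triples with any number of prime factors and `c ≤ rad (abc) ^ A`, for all `A`. For
`v_k = b ^ k` this is a set of dimension smaller than one for `θ < 3 / 7`. (There are about `v_k ^ (θ - 1 / 3)` abc-triples with
their radical in this window, on average.)

2. For all `α > 0` outside a set of dimension at most `τ / (1 - θ)` (dimension zero for `v_k = b ^ k`, for all `θ < 1`) and all
`n` there is `K` such that for all but finitely many `k` every abc-triple, of whatever height, with at most `n` prime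
factors and `|rad (abc) - α v_k| ≤ v_k ^ θ` has `c < rad (abc) ^ K`.

The input are the bounds `X ^ (4 t / 7 + ε)` for the number of the triples with `c ≤ X`, `rad (abc) ≤ c ^ t` (starting library), and
`X ^ ε` for the number of the triples with at most `n` prime factors, `rad (abc) ≤ X` and `c ≥ rad (abc) ^ K` (starting
result `MP_1ea25c_nt.FarViolationsRare`).
-/

set_option autoImplicit false

namespace Pool.Agent.Results.MP_2ec8a3_nt.WindowsOfRadicals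

/-- the radical: the product of the distinct primes dividing `m` -/
def rad (m : ℕ) : ℕ := ∏ p ∈ m.primeFactors, p

/-- `t = (a, b, c)` is an abc-triple: `a`, `b` are coprime positive integers and `c = a + b` -/
def Triple (t : ℕ × ℕ × ℕ) : Prop := 0 < t.1 ∧ 0 < t.2.1 ∧ Nat.Coprime t.1 t.2.1 ∧ t.1 + t.2.1 = t.2.2

/-- `rad (abc)` -/
def R (t : ℕ × ℕ × ℕ) : ℕ := rad (t.1 * t.2.1 * t.2.2)

/-- the number of the primes dividing `abc` -/
def omega (t : ℕ × ℕ × ℕ) : ℕ := (t.1 * t.2.1 * t.2.2).primeFactors.card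

/-- the exponent of convergence of the sequence `v` is at most `τ` -/
def ExpLe (v : ℕ → ℝ) (τ : ℝ) : Prop := ∀ t : ℝ, τ < t → Summable (fun n : ℕ => (v n) ^ (-t))

theorem R_pos (t : ℕ × ℕ × ℕ) : (1 : ℝ) ≤ R t := Pool.Agent.H107.AbcRad.one_le_rd t

/-- **Theorem.** -/
theorem result :
    (∀ (v : ℕ → ℝ) (τ θ : ℝ), (∀ k, 1 ≤ v k) → 0 ≤ τ → ExpLe v τ → θ < 1 →
      (∃ E : Set ℝ, dimH E ≤ ENNReal.ofReal ((4 / 7 + τ) / (1 - θ)) ∧ ∀ α : ℝ, 0 < α → α ∉ E → ∀ B : ℝ,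
        (∀ n : ℕ, ∃ k₀ : ℕ, ∀ k : ℕ, k₀ ≤ k → ∀ t, Triple t → omega t ≤ n → |(R t : ℝ) - α * v k| ≤ (v k) ^ θ →
          B * t.2.2 < R t) ∧
        (∀ A : ℝ, ∃ k₀ : ℕ, ∀ k : ℕ, k₀ ≤ k → ∀ t, Triple t → (t.2.2 : ℝ) ≤ (R t : ℝ) ^ A →
          |(R t : ℝ) - α * v k| ≤ (v k) ^ θ → B * t.2.2 < R t)) ∧
      (∃ E : Set ℝ, dimH E ≤ ENNReal.ofReal (τ / (1 - θ)) ∧ ∀ α : ℝ, 0 < α → α ∉ E → ∀ n : ℕ,
        ∃ K k₀ : ℕ, ∀ k : ℕ, k₀ ≤ k → ∀ t, Triple t → omega t ≤ n → |(R t : ℝ) - α * v k| ≤ (v k) ^ θ →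
          t.2.2 < (R t) ^ K)) ∧
    (∀ a : ℝ, 0 < a → ExpLe (fun n : ℕ => ((n : ℝ) + 1) ^ a) (1 / a)) ∧
    (∀ b : ℝ, 1 < b → ExpLe (fun n : ℕ => b ^ n) 0) := by
  refine ⟨fun v τ θ hv hτ hE hθ1 => ?_, fun κ hκ => Pool.Agent.Y854.GM.expLe_pow κ hκ,
    fun b hb => Pool.Agent.Y854.GM.expLe_geom b hb⟩
  obtain ⟨⟨E₀, h1, h2⟩, E, h3, h4⟩ := Pool.Agent.H107.AbcRad.windows hv hτ hE hθ1
  have hle : ∀ (B : ℝ) (t : ℕ × ℕ × ℕ), (R t : ℝ) ≤ B * t.2.2 → (R t : ℝ) ≤ max B 1 * t.2.2 := fun B t h =>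
    h.trans (mul_le_mul_of_nonneg_right (le_max_left _ _) (Nat.cast_nonneg _))
  have hexc : ∀ (B : ℝ) (t : ℕ × ℕ × ℕ), Triple t → (R t : ℝ) ≤ max B 1 * t.2.2 →
      t ∈ Pool.Agent.H107.AbcWin.Exc (max B 1) 1 := by
    intro B t ht h
    refine ⟨ht.1, ht.2.1, ht.2.2.1, ht.2.2.2, ?_⟩
    rw [Real.rpow_one]
    exact h
  have hfin : ∀ (B : ℝ) (t : ℕ × ℕ × ℕ), Triple t → ¬ ((R t : ℝ) ≤ max B 1 * t.2.2) → B * t.2.2 < R t := by
    intro B t ht h
    have h5 : max B 1 * (t.2.2 : ℝ) < R t := not_le.1 h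
    have h6 : B * (t.2.2 : ℝ) ≤ max B 1 * t.2.2 := mul_le_mul_of_nonneg_right (le_max_left _ _) (Nat.cast_nonneg _)
    linarith
  refine ⟨⟨E, h3, fun α hα hαE B => ⟨fun n => ?_, fun A => ?_⟩⟩, E₀, h1, fun α hα hαE n => ?_⟩
  · obtain ⟨k₀, hk⟩ := (h4 α hα hαE (max B 1)).2 n
    refine ⟨k₀, fun k hk0 t ht hn hw => hfin B t ht fun hcon => ?_⟩
    exact absurd hw (not_le.2 (hk k hk0 t (hexc B t ht hcon) hn))
  · obtain ⟨k₀, hk⟩ := (h4 α hα hαE (max B 1)).1 A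
    refine ⟨k₀, fun k hk0 t ht hA hw => hfin B t ht fun hcon => ?_⟩
    exact absurd hw (not_le.2 (hk k hk0 t ⟨hexc B t ht hcon, hA⟩))
  · obtain ⟨K, k₀, hk⟩ := h2 α hα hαE n
    have key : ∀ k : ℕ, k₀ ≤ k → ∀ t, Triple t → omega t ≤ n → |(R t : ℝ) - α * v k| ≤ (v k) ^ θ →
        (t.2.2 : ℝ) < (R t : ℝ) ^ (K + 1) := by
      intro k hk0 t ht hn hw
      by_contra hcon
      rw [not_lt] at hcon
      have hle1 : (R t : ℝ) ^ K ≤ (t.2.2 : ℝ) := (pow_le_pow_right₀ (R_pos t) (Nat.le_succ K)).trans hcon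
      refine absurd hw (not_le.2 (hk k hk0 t ⟨ht.1, ht.2.1, ht.2.2.1, ht.2.2.2, hn, ?_⟩))
      rw [Real.rpow_natCast]
      exact hle1
    exact ⟨K + 1, k₀, fun k hk0 t ht hn hw => by exact_mod_cast key k hk0 t ht hn hw⟩

end Pool.Agent.Results.MP_2ec8a3_nt.WindowsOfRadicals
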